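import Pool.Agent.helper37.ND.SpecP

set_option autoImplicit false

namespace Pool.Agent.ND

open Pool.Agent.helper58.DC Pool.Agent.DI Pool.Agent.GR

section

variable {G : Type} [Group G]

/-- the action of a subgroup of `L × L` on `L` -/
@[reducible] def KIP_act (L : Subgroup G) (Q : Subgroup (L × L)) : MulAction Q L where
  smul a z := (a : L × L).1 * z * ((a : L × L).2)⁻¹
  one_smul z := by
    show ((1 : Q) : L × L).1 * z * (((1 : Q) : L × L).2)⁻¹ = z
    simp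
  mul_smul a b z := by
    show ((a * b : Q) : L × L).1 * z * (((a * b : Q) : L × L).2)⁻¹ =
      (a : L × L).1 * ((b : L × L).1 * z * ((b : L × L).2)⁻¹) * ((a : L × L).2)⁻¹
    simp [mul_assoc]

/-- the two sided multiplication by `y` -/
def KIP_tau (L : Subgroup G) (y : L × L) : Equiv.Perm L where
  toFun z := y.1 * z * y.2⁻¹
  invFun z := y.1⁻¹ * z * y.2
  left_inv z := by simp [mul_assoc]
  right_inv z := by simp [mul_assoc]

theorem KIP_tau_apply (L : Subgroup G) (y : L × L) (z : L) :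
    KIP_tau L y z = y.1 * z * y.2⁻¹ := rfl

theorem KIP_tau_pow (L : Subgroup G) (y : L × L) (n : ℕ) (z : L) :
    (KIP_tau L y ^ n) z = y.1 ^ n * z * (y.2 ^ n)⁻¹ := by
  induction n with
  | zero => simp
  | succ n ih =>
    rw [pow_succ', Equiv.Perm.mul_apply, ih, KIP_tau_apply, pow_succ', pow_succ', mul_inv_rev]
    simp only [mul_assoc]

theorem KIP_idem (hIDM : IDM_stmt) [Finite G] (L : Subgroup G) (S : Set (G → ℂ))
    (hS : S ⊆ IrrOn L) [Fintype L] (z w : L) :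
    ∑ u : L, eS L S ((u : G)⁻¹ * z) * eS L S ((w : G)⁻¹ * u) = eS L S ((w : G)⁻¹ * z) := by
  classical
  obtain ⟨hCF, _, hid, _⟩ := hIDM G L S hS
  have h1 : eS L S ((w : G)⁻¹ * z) =
      ∑ᶠ x : G, eS L S x * eS L S (x⁻¹ * ((w : G)⁻¹ * z)) := by
    have := congrFun hid ((w : G)⁻¹ * z)
    rw [← this]
    rfl
  have h2 : ∑ᶠ x : G, eS L S x * eS L S (x⁻¹ * ((w : G)⁻¹ * z)) =
      ∑ᶠ x ∈ (L : Set G), eS L S x * eS L S (x⁻¹ * ((w : G)⁻¹ * z)) := by
    refine finsum_congr fun x => ?_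
    by_cases hx : x ∈ (L : Set G)
    · rw [finsum_eq_if, if_pos hx]
    · rw [finsum_eq_if, if_neg hx, hCF.2 x hx, zero_mul]
  rw [h1, h2, ← finsum_set_coe_eq_finsum_mem]
  have h3 : ∑ᶠ i : (L : Set G), eS L S (i : G) * eS L S ((i : G)⁻¹ * ((w : G)⁻¹ * z)) =
      ∑ i : L, eS L S (i : G) * eS L S ((i : G)⁻¹ * ((w : G)⁻¹ * z)) :=
    finsum_eq_sum_of_fintype (α := L)
      (fun i : L => eS L S (i : G) * eS L S ((i : G)⁻¹ * ((w : G)⁻¹ * z)))
  rw [h3]
  refine Fintype.sum_equiv (Equiv.mulLeft w⁻¹) _ _ fun u => ?_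
  rw [mul_comm (eS L S ((u : G)⁻¹ * z))]
  have e1 : ((Equiv.mulLeft w⁻¹ u : L) : G) = (w : G)⁻¹ * u := by simp
  rw [e1]
  congr 2
  group

theorem KIP_tr (hIDM : IDM_stmt) [Finite G] (L : Subgroup G) (S : Set (G → ℂ))
    (hS : S ⊆ IrrOn L) [Fintype L] (a b : L) :
    ∑ x : L, eS L S (((a * x * b⁻¹ : L) : G)⁻¹ * x) = Sf S a b := by
  classical
  obtain ⟨hCF, _, _, htr⟩ := hIDM G L S hS
  rw [← htr a a.2 b b.2, ← finsum_set_coe_eq_finsum_mem]
  have h3 : ∑ᶠ i : (L : Set G), eS L S ((i : G)⁻¹ * (a : G)⁻¹ * i * b) =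
      ∑ i : L, eS L S ((i : G)⁻¹ * (a : G)⁻¹ * i * b) :=
    finsum_eq_sum_of_fintype (α := L)
      (fun i : L => eS L S ((i : G)⁻¹ * (a : G)⁻¹ * i * b))
  rw [h3]
  refine Finset.sum_congr rfl fun x _ => ?_
  rw [← hCF.1 b b.2 ((x : G)⁻¹ * (a : G)⁻¹ * x * b)]
  congr 1
  push_cast
  group

theorem KIP_loc (hPMS : PMS_stmt) (hIDM : IDM_stmt) (hEIN : EIN_stmt)
    {p : ℕ} {M : Ideal (integralClosure ℤ ℂ)} (hS : Setup p M) [Finite G]
    (L : Subgroup G) (S : Set (G → ℂ)) (hB : BC M L S) (f : G → G → ℂ) (N : ℕ)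
    (h1 : ∀ a ∈ L, ∀ b ∈ L, IntAt M ((p : ℂ) ^ N * f a b))
    (h2 : ∀ a ∈ L, ∀ b ∈ L, ∀ h ∈ L, f (h * a * h⁻¹) b = f a b ∧ f a (h * b * h⁻¹) = f a b)
    (h3 : ∀ R : Subgroup G, R ≤ L → IsPGroup p R →
      (∃ w ∈ L, (∀ v ∈ R, v * w = w * v) ∧ ¬ InM M (eS L S w)) →
      ∀ y ∈ L, ∀ y' ∈ L, PReg p y → PReg p y' → (∀ v ∈ R, v * y = y * v) →
      (∀ v ∈ R, v * y' = y' * v) →
      IntAt M ((Nat.card R : ℂ)⁻¹ * ∑ᶠ v ∈ (R : Set G), f (v * y) (v * y')))
    (y : L × L) (hy : PReg p y) (Q : Subgroup (L × L)) (hQ : IsPGroup p Q)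
    (hc : ∀ u ∈ Q, u * y = y * u) :
    IntAt M ((Nat.card Q : ℂ)⁻¹ * ∑ᶠ u ∈ (Q : Set (L × L)),
      f ((u * y).1 : L) ((u * y).2 : L) * Sf S ((u * y).1 : L) ((u * y).2 : L)) := by
  classical
  letI : Fintype L := Fintype.ofFinite L
  letI := KIP_act L Q
  have hsm : ∀ (a : Q) (z : L), a • z = (a : L × L).1 * z * ((a : L × L).2)⁻¹ := fun a z => rfl
  obtain ⟨hCF, _, _, _⟩ := hIDM G L S hB.sub
  have hc1 : ∀ a : Q, (a : L × L).1 * y.1 = y.1 * (a : L × L).1 := fun a =>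
    congrArg Prod.fst (hc a a.2)
  have hc2 : ∀ a : Q, (a : L × L).2 * y.2 = y.2 * (a : L × L).2 := fun a =>
    congrArg Prod.snd (hc a a.2)
  have hc2' : ∀ a : Q, (y.2)⁻¹ * ((a : L × L).2)⁻¹ = ((a : L × L).2)⁻¹ * (y.2)⁻¹ := fun a => by
    rw [← mul_inv_rev, ← mul_inv_rev, hc2 a]
  have hinv : ∀ a b z w : L, eS L S (((a * w * b⁻¹ : L) : G)⁻¹ * ((a * z * b⁻¹ : L) : G)) =
      eS L S ((w : G)⁻¹ * z) := by
    intro a b z w
    rw [← hCF.1 b b.2 ((w : G)⁻¹ * z)]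
    congr 1
    push_cast
    group
  have key := hPMS p M hS Q L hQ (KIP_tau L y) (orderOf y) hy ?_ ?_
    (fun z w => eS L S ((w : G)⁻¹ * z)) ?_ ?_ ?_ ?_
    (fun a : Q => f (((a : L × L) * y).1 : L) (((a : L × L) * y).2 : L)) N ?_ ?_ ?_
  · rw [← finsum_set_coe_eq_finsum_mem]
    have e : ∀ a : Q, f (((a : L × L) * y).1 : L) (((a : L × L) * y).2 : L) *
        ∑ x : L, eS L S (((a • (KIP_tau L y x) : L) : G)⁻¹ * x) =
        f (((a : L × L) * y).1 : L) (((a : L × L) * y).2 : L) *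
          Sf S (((a : L × L) * y).1 : L) (((a : L × L) * y).2 : L) := by
      intro a
      rw [← KIP_tr hIDM L S hB.sub]
      congr 1
      refine Finset.sum_congr rfl fun x _ => ?_
      rw [hsm, KIP_tau_apply]
      congr 3
      rw [Prod.fst_mul, Prod.snd_mul, mul_inv_rev]
      simp only [mul_assoc]
    rw [finsum_congr e] at key
    exact key
  · ext z
    rw [KIP_tau_pow]
    have e1 : y.1 ^ orderOf y = 1 := by
      rw [← Prod.pow_fst, pow_orderOf_eq_one]; rfl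
    have e2 : y.2 ^ orderOf y = 1 := by
      rw [← Prod.pow_snd, pow_orderOf_eq_one]; rfl
    rw [e1, e2]
    simp
  · intro a x
    rw [hsm, hsm, KIP_tau_apply, KIP_tau_apply]
    have := hc1 a
    have h' := hc2' a
    calc y.1 * ((a : L × L).1 * x * ((a : L × L).2)⁻¹) * y.2⁻¹
        = (y.1 * (a : L × L).1) * x * (((a : L × L).2)⁻¹ * y.2⁻¹) := by simp only [mul_assoc]
      _ = ((a : L × L).1 * y.1) * x * (y.2⁻¹ * ((a : L × L).2)⁻¹) := by rw [this, h']
      _ = (a : L × L).1 * (y.1 * x * y.2⁻¹) * ((a : L × L).2)⁻¹ := by simp only [mul_assoc]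
  · intro x w
    exact hEIN p M hS G L S hB _
  · intro x w
    exact KIP_idem hIDM L S hB.sub x w
  · intro a z w
    exact hinv _ _ z w
  · intro z w
    exact hinv _ _ z w
  · intro a
    exact h1 _ (SetLike.coe_mem _) _ (SetLike.coe_mem _)
  · intro a b
    have e1 : ((((b * a * b⁻¹ : Q) : L × L) * y).1 : G) =
        ((b : L × L).1 : G) * ((((a : L × L) * y).1 : L) : G) * ((b : L × L).1 : G)⁻¹ := by
      have h := hc1 b
      have h' : (((b : L × L).1)⁻¹ : L) * y.1 = y.1 * ((b : L × L).1)⁻¹ := by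
        rw [inv_mul_eq_iff_eq_mul, ← mul_assoc, h, mul_assoc, mul_inv_cancel, mul_one]
      have : (((b * a * b⁻¹ : Q) : L × L) * y).1 =
          (b : L × L).1 * ((a : L × L) * y).1 * ((b : L × L).1)⁻¹ := by
        simp only [Subgroup.coe_mul, InvMemClass.coe_inv, Prod.fst_mul, Prod.fst_inv]
        rw [mul_assoc, h']
        simp only [mul_assoc]
      rw [this]
      push_cast
      rfl
    have e2 : ((((b * a * b⁻¹ : Q) : L × L) * y).2 : G) =
        ((b : L × L).2 : G) * ((((a : L × L) * y).2 : L) : G) * ((b : L × L).2 : G)⁻¹ := by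
      have h := hc2 b
      have h' : (((b : L × L).2)⁻¹ : L) * y.2 = y.2 * ((b : L × L).2)⁻¹ := by
        rw [inv_mul_eq_iff_eq_mul, ← mul_assoc, h, mul_assoc, mul_inv_cancel, mul_one]
      have : (((b * a * b⁻¹ : Q) : L × L) * y).2 =
          (b : L × L).2 * ((a : L × L) * y).2 * ((b : L × L).2)⁻¹ := by
        simp only [Subgroup.coe_mul, InvMemClass.coe_inv, Prod.snd_mul, Prod.snd_inv]
        rw [mul_assoc, h']
        simp only [mul_assoc]
      rw [this]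
      push_cast
      rfl
    show f _ _ = f _ _
    rw [e1, e2]
    rw [(h2 _ (SetLike.coe_mem _) _ (L.mul_mem (L.mul_mem (SetLike.coe_mem _)
        (SetLike.coe_mem _)) (L.inv_mem (SetLike.coe_mem _))) _ (SetLike.coe_mem _)).1,
      (h2 _ (SetLike.coe_mem _) _ (SetLike.coe_mem _) _ (SetLike.coe_mem _)).2]
  · rintro Q' ⟨z, z', hz, hz', hnm⟩
    -- relations
    have r1 : ∀ a ∈ Q', (a : L × L).1 = z * (a : L × L).2 * z⁻¹ := by
      intro a ha
      have := hz a ha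
      rw [hsm, mul_inv_eq_iff_eq_mul] at this
      rw [← this, mul_assoc, mul_inv_cancel, mul_one]
    have r2 : ∀ a ∈ Q', (a : L × L).1 = z' * (a : L × L).2 * z'⁻¹ := by
      intro a ha
      have := hz' a ha
      rw [hsm, mul_inv_eq_iff_eq_mul] at this
      rw [← this, mul_assoc, mul_inv_cancel, mul_one]
    -- the projection
    let π : Q →* G := (L.subtype.comp (MonoidHom.snd L L)).comp Q.subtype
    have hπ : ∀ a : Q, π a = (((a : L × L).2 : L) : G) := fun a => rfl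
    let R : Subgroup G := Q'.map π
    have hRL : R ≤ L := by
      rintro _ ⟨a, _, rfl⟩
      rw [hπ]
      exact SetLike.coe_mem _
    have hRp : IsPGroup p R := (hQ.to_subgroup Q').map π
    have hinj : Set.InjOn π (Q' : Set Q) := by
      intro a ha b hb hab
      rw [hπ, hπ] at hab
      have hab' : (a : L × L).2 = (b : L × L).2 := Subtype.ext hab
      apply Subtype.ext
      apply Prod.ext _ hab'
      rw [r1 a ha, r1 b hb, hab']
    have hcard : Nat.card R = Nat.card Q' := by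
      have hRs : (R : Set G) = π '' (Q' : Set Q) := Subgroup.coe_map π Q'
      have : Nat.card (R : Set G) = Nat.card (Q' : Set Q) := by
        rw [hRs]
        exact Nat.card_image_of_injOn hinj
      exact this
    have hsum : ∑ᶠ v ∈ (R : Set G), f (v * ((z⁻¹ * y.1 * z : L) : G)) (v * (y.2 : G)) =
        ∑ᶠ a ∈ (Q' : Set Q), f (((a : L × L) * y).1 : L) (((a : L × L) * y).2 : L) := by
      have hRs : (R : Set G) = π '' (Q' : Set Q) := Subgroup.coe_map π Q'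
      rw [hRs, finsum_mem_image hinj]
      refine finsum_mem_congr rfl fun a ha => ?_
      rw [hπ]
      have e1 : ((((a : L × L) * y).1 : L) : G) =
          (z : G) * ((((a : L × L).2 : L) : G) * ((z⁻¹ * y.1 * z : L) : G)) * (z : G)⁻¹ := by
        rw [Prod.fst_mul, r1 a ha]
        push_cast
        group
      have e2 : ((((a : L × L) * y).2 : L) : G) = (((a : L × L).2 : L) : G) * (y.2 : G) := by
        rw [Prod.snd_mul]
        push_cast
        rfl
      rw [e1, e2, (h2 _ (L.mul_mem (SetLike.coe_mem _) (SetLike.coe_mem _)) _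
        (L.mul_mem (SetLike.coe_mem _) (SetLike.coe_mem _)) z z.2).1]
    have hfin := h3 R hRL hRp ⟨((z'⁻¹ * z : L) : G), SetLike.coe_mem _, ?_, ?_⟩
      ((z⁻¹ * y.1 * z : L) : G) (SetLike.coe_mem _) (y.2 : G) (SetLike.coe_mem _) ?_ ?_ ?_ ?_
    · rw [hsum, hcard] at hfin
      exact hfin
    · rintro _ ⟨a, ha, rfl⟩
      rw [hπ, ← Subgroup.coe_mul, ← Subgroup.coe_mul]
      congr 1
      have h := (r1 a ha).symm.trans (r2 a ha)
      rw [mul_inv_eq_iff_eq_mul] at h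
      -- `z v = z' v z'⁻¹ z`
      rw [mul_assoc z'⁻¹ z, h]
      group
    · have : ((z'⁻¹ * z : L) : G) = (z' : G)⁻¹ * z := by push_cast; rfl
      rw [this]
      exact hnm
    · -- p-regular
      intro hd
      apply hy
      have e1 : orderOf ((z⁻¹ * y.1 * z : L) : G) = orderOf y.1 := by
        rw [Subgroup.orderOf_coe]
        have : z⁻¹ * y.1 * z = MulAut.conj z⁻¹ y.1 := by simp [MulAut.conj_apply]
        rw [this]
        exact MulEquiv.orderOf_eq (MulAut.conj z⁻¹) y.1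
      rw [e1] at hd
      exact hd.trans (orderOf_fst_dvd_orderOf (x := y))
    · intro hd
      apply hy
      rw [Subgroup.orderOf_coe] at hd
      exact hd.trans (orderOf_snd_dvd_orderOf (x := y))
    · rintro _ ⟨a, ha, rfl⟩
      rw [hπ, ← Subgroup.coe_mul, ← Subgroup.coe_mul]
      congr 1
      have h := hc1 a
      rw [r1 a ha] at h
      have : z⁻¹ * (z * (a : L × L).2 * z⁻¹ * y.1) * z = z⁻¹ * (y.1 * (z * (a : L × L).2 * z⁻¹)) * z := by
        rw [h]
      calc (a : L × L).2 * (z⁻¹ * y.1 * z) = z⁻¹ * (z * (a : L × L).2 * z⁻¹ * y.1) * z := by group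
        _ = z⁻¹ * (y.1 * (z * (a : L × L).2 * z⁻¹)) * z := this
        _ = z⁻¹ * y.1 * z * (a : L × L).2 := by group
    · rintro _ ⟨a, ha, rfl⟩
      rw [hπ, ← Subgroup.coe_mul, ← Subgroup.coe_mul]
      congr 1
      exact hc2 a

end

theorem KIP (hBLI : BLI_stmt) (hPMS : PMS_stmt) (hIDM : IDM_stmt) (hEIN : EIN_stmt)
    (hSFC : SFC_stmt) : KIP_stmt := by
  classical
  intro p M hS G _ _ L S hB f N h1 h2 h3
  obtain ⟨hcf, hint, _⟩ := hSFC G L S hB.sub
  have key := hBLI p M hS (L × L) (fun g => f (g.1 : L) (g.2 : L) * Sf S (g.1 : L) (g.2 : L)) N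
    ?_ ?_ ?_
  · have e1 : (Nat.card (L × L) : ℂ) = (Nat.card L : ℂ) ^ 2 := by
      rw [Nat.card_prod]; push_cast; ring
    have e2 : ∑ᶠ g : L × L, f (g.1 : L) (g.2 : L) * Sf S (g.1 : L) (g.2 : L) =
        ∑ᶠ a ∈ (L : Set G), ∑ᶠ b ∈ (L : Set G), f a b * Sf S a b := by
      letI : Fintype L := Fintype.ofFinite L
      rw [finsum_eq_sum_of_fintype, Fintype.sum_prod_type]
      rw [← finsum_set_coe_eq_finsum_mem (L : Set G)]
      have h3' : ∑ᶠ i : (L : Set G), (∑ᶠ b ∈ (L : Set G), f i b * Sf S i b) =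
          ∑ i : L, (∑ᶠ b ∈ (L : Set G), f i b * Sf S i b) :=
        finsum_eq_sum_of_fintype (α := L)
          (fun i : L => ∑ᶠ b ∈ (L : Set G), f i b * Sf S i b)
      rw [h3']
      refine Finset.sum_congr rfl fun a _ => ?_
      rw [← finsum_set_coe_eq_finsum_mem (L : Set G)]
      exact (finsum_eq_sum_of_fintype (α := L) (fun i : L => f a i * Sf S a i)).symm
    rw [e1, e2] at key
    exact key
  · rintro ⟨g1, g2⟩ ⟨k1, k2⟩
    show f ((k1 * g1 * k1⁻¹ : L) : G) ((k2 * g2 * k2⁻¹ : L) : G) *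
      Sf S ((k1 * g1 * k1⁻¹ : L) : G) ((k2 * g2 * k2⁻¹ : L) : G) = f g1 g2 * Sf S g1 g2
    have c1 : ((k1 * g1 * k1⁻¹ : L) : G) = (k1 : G) * g1 * (k1 : G)⁻¹ := by push_cast; rfl
    have c2 : ((k2 * g2 * k2⁻¹ : L) : G) = (k2 : G) * g2 * (k2 : G)⁻¹ := by push_cast; rfl
    rw [c1, c2, (hcf _ _ k1 k1.2).1, (hcf _ _ k2 k2.2).2,
      (h2 _ g1.2 _ (L.mul_mem (L.mul_mem k2.2 g2.2) (L.inv_mem k2.2)) _ k1.2).1,
      (h2 _ g1.2 _ g2.2 _ k2.2).2]
  · intro g
    rw [← mul_assoc]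
    exact (h1 _ (SetLike.coe_mem _) _ (SetLike.coe_mem _)).mul hS
      (IntAt.of_isIntegral hS (hint _ _))
  · intro y hy Q hQ hc
    exact KIP_loc hPMS hIDM hEIN hS L S hB f N h1 h2 h3 y hy Q hQ hc

end Pool.Agent.ND
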